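import Pool.Agent.KS6_18.MX.Exc

/-!
# MP_456481_pr : the `ax+b` walk modulo almost all `q`, large deviations of the mixing time

For every integer `a ≥ 4` the number of `q ≤ X` coprime to `a` for which the distance `d_q(T)` is
at least `exp (-H)` is `X exp (- Θ (T / (H + log log X)))`, uniformly for
`(1 + δ) log_2 X ≤ T ≪ log X (H + log log X)` and `0 ≤ H ≪ T`. In particular the set of `q ≤ X` for
which the mixing time (at any level `0 < η < 1`) is not within a factor `1 ± δ` of `log_2 q` has
exactly `X exp (- Θ (log X / log log X))` elements, which answers Q1 with the true order of the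
exceptional set.

Upper bound: a frequency `k / q` with few digits away from the integers has a reduced denominator
in a very sparse set (library); new is a separate treatment of the frequencies with a small reduced
denominator, which allows windows of length `≍ T / (H + log log X)`.
Lower bound (new): for the multiples `q` of `a ^ w - 1` with `w ≍ T / (H + log log X)` the `w`
characters of frequency `a ^ t / (a ^ w - 1)` have the same mean under the walk and are nearly
uncorrelated, and the second moment method shows that the walk is far from uniform at time `T`.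
-/

set_option autoImplicit false

open Finset Filter Topology

namespace Pool.Agent.Results.MP_456481_pr.ExceptionalModuli

/-- `X_n = ∑_{i < n} b_i a^(n-1-i)`, the position at time `n` of the walk `X_0 = 0`,
`X_{i+1} = a X_i + b_i` with digits `b_0, …, b_{n-1}`. -/
def walk (a n : ℕ) (b : Fin n → Fin 2) : ℕ := ∑ i : Fin n, (b i : ℕ) * a ^ (n - 1 - (i : ℕ))

/-- `P_{n,q}(r)`: the probability that `X_n mod q = r` when the digits `b_0, …, b_{n-1}` are
independent and uniform on `{0,1}` (the proportion of digit strings with this property). -/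
noncomputable def law (a q n r : ℕ) : ℝ :=
  ((univ.filter (fun b : Fin n → Fin 2 => walk a n b % q = r)).card : ℝ) / 2 ^ n

/-- `d_q(n)`: the total variation distance between `P_{n,q}` and the uniform distribution on the
residues modulo `q`. -/
noncomputable def dist (a q n : ℕ) : ℝ := 1 / 2 * ∑ r ∈ range q, |law a q n r - 1 / q|

/-- `t` is the mixing time at level `η`, `t = min {n ≥ 0 : d_q(n) ≤ η}` (`η = 1/4` in the
question) -/
def IsMixingTime (a q : ℕ) (η : ℝ) (t : ℕ) : Prop := IsLeast {n : ℕ | dist a q n ≤ η} t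

/-- `q` is exceptional: it is not the case that the mixing time `t` at level `η` exists and
satisfies `|t / log_2 q - 1| ≤ δ` -/
def Exceptional (a : ℕ) (δ η : ℝ) (q : ℕ) : Prop :=
  ¬ ∃ t : ℕ, IsMixingTime a q η t ∧ |(t : ℝ) / Real.logb 2 q - 1| ≤ δ

open Classical in
/-- the number of `2 ≤ q ≤ X` coprime to `a` with the property `P` -/
noncomputable def count (a X : ℕ) (P : ℕ → Prop) : ℝ :=
  (((Icc 2 X).filter (fun q : ℕ => q.Coprime a ∧ P q)).card : ℝ)

theorem dist_eq (a q n : ℕ) : dist a q n = H942R3.AX.tv a q n := rfl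

/-- **Theorem.** Let `a ≥ 4`.

(1) For every `δ > 0` there is `c > 0` such that for all large `X`, all `T ≥ (1 + δ) log_2 X` and
all `0 ≤ H ≤ c T` at most `X exp (- c T / (H + log log X))` of the `q ≤ X` coprime to `a` have
`d_q(T) ≥ exp (-H)`.

(2) For every `0 < η < 1` there is `C > 0` such that for all large `X`, all `T ≥ log X` and all
`0 ≤ H ≤ T` with `C T ≤ log X (H + log log X)` at least `X exp (- C T / (H + log log X))` of the
`q ≤ X` coprime to `a` have `d_q(T) ≥ η exp (-H)`.

(3) For all `δ > 0` and `0 < η < 1` the number of `q ≤ X` coprime to `a` for which the mixing time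
`t_q` at level `η` is not in `[(1 - δ) log_2 q, (1 + δ) log_2 q]` is between
`X exp (- C log X / log log X)` and `X exp (- c log X / log log X)` for all large `X`.

(4) In particular (`η = 1/4`) `t_q = (1 + o(1)) log_2 q` for almost all `q` coprime to `a`. -/
theorem result (a : ℕ) (ha : 4 ≤ a) :
    (∀ δ : ℝ, 0 < δ → ∃ c : ℝ, 0 < c ∧ ∃ X0 : ℕ, ∀ X ≥ X0, ∀ T : ℕ,
      (1 + δ) * Real.logb 2 X ≤ T → ∀ H : ℝ, 0 ≤ H → H ≤ c * T →
      count a X (fun q => Real.exp (-H) ≤ dist a q T) ≤
        X * Real.exp (-(c * T / (H + Real.log (Real.log X))))) ∧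
    (∀ η : ℝ, 0 < η → η < 1 → ∃ C : ℝ, 0 < C ∧ ∃ X0 : ℕ, ∀ X ≥ X0, ∀ T : ℕ,
      Real.log X ≤ T → ∀ H : ℝ, 0 ≤ H → H ≤ T →
      C * T ≤ Real.log X * (H + Real.log (Real.log X)) →
      X * Real.exp (-(C * T / (H + Real.log (Real.log X)))) ≤
        count a X (fun q => η * Real.exp (-H) ≤ dist a q T)) ∧
    (∀ δ : ℝ, 0 < δ → ∀ η : ℝ, 0 < η → η < 1 → ∃ c C : ℝ, 0 < c ∧ 0 < C ∧ ∃ X0 : ℕ, ∀ X ≥ X0,
      X * Real.exp (-(C * Real.log X / Real.log (Real.log X))) ≤
        count a X (Exceptional a δ η) ∧
      count a X (Exceptional a δ η) ≤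
        X * Real.exp (-(c * Real.log X / Real.log (Real.log X)))) ∧
    (∀ δ : ℝ, 0 < δ → Tendsto (fun x : ℕ => count a x (Exceptional a δ (1 / 4)) /
      (((Icc 1 x).filter (fun q : ℕ => q.Coprime a)).card : ℝ)) atTop (𝓝 0)) := by
  classical
  refine ⟨?_, ?_, ?_, ?_⟩
  · intro δ hδ
    obtain ⟨c, hc, X0, h⟩ := Pool.Agent.KS6_18.MX.upperT a ha δ hδ
    refine ⟨c, hc, X0, fun X hX T hT H hH0 hH => ?_⟩
    exact h X hX T hT H hH0 hH
  · intro η hη0 hη1
    obtain ⟨C, hC, X0, h⟩ := Pool.Agent.KS6_18.MX.lowerT a ha η hη0 hη1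
    refine ⟨C, hC, X0, fun X hX T hT H hH0 hH hCT => ?_⟩
    exact h X hX T hT H hH0 hH hCT
  · intro δ hδ η hη0 hη1
    obtain ⟨c, hc, X0, h⟩ := Pool.Agent.KS6_18.MX.exc_upper a ha δ hδ η hη0 hη1
    obtain ⟨C, hC, X1, h'⟩ := Pool.Agent.KS6_18.MX.exc_lower a ha δ hδ η hη0 hη1
    exact ⟨c, C, hc, hC, max X0 X1, fun X hX =>
      ⟨h' X (le_trans (le_max_right _ _) hX), h X (le_trans (le_max_left _ _) hX)⟩⟩
  · intro δ hδ
    have := (Pool.Agent.Results.MP_456481_pr.Cutoff.result a ha δ hδ).2 (1 / 4)
      (by norm_num) (by norm_num)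
    exact this

end Pool.Agent.Results.MP_456481_pr.ExceptionalModuli
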