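import Pool.Agent.KS6_59.AX.Conv

/-!
# MP_456481_pr : the `ax+b` walk modulo almost all `q`, for all step laws

`X_0 = 0`, `X_{n+1} = a X_n + b_n`, where `a ≥ 2` is ANY integer and the steps `b_n` are independent
with ANY finitely supported law `p` on `ℤ` which is not a point mass. Let `h` be the entropy rate of
the walk on `ℤ`, `h = lim H(X_n) / n`. We show that `0 < h ≤ log a` and that modulo almost all `q`
the walk has a cutoff at `log q / h`: the distance to the uniform law is close to `1` before and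
close to `0` after this time, and `t_q = (1 + o(1)) log q / h`. The moduli are coprime to `a` and to
the greatest common divisor of the differences of the steps (for the others there is no mixing).
For `b_n` uniform on `{0, 1}` (where `h = log 2`) and `a ≥ 5` this is the statement of Q1.

The entropic lower bound and the upper bound need new arguments in this generality:

* (typical blocks) the digits are cut into `R` blocks and the law of each block is restricted to the
  values of probability at most `e ^ (-(h - ε) m)`. The removed mass is exponentially small. This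
  follows from the submultiplicativity `Z(u + w) ≤ M ^ θ Z(u) Z(w)` of the moments
  `Z(θ) = ∑_x P(X_n = x) ^ (1 + θ)`, `M` the number of overlaps, and `θ → 0`;
* (frequencies) `k / q` is bad if most of the numbers `k a ^ j / q`, `j < n`, are close to an
  integer. If `a ^ n ≥ q ^ (1 + β)`, `β > 0`, then few `q` have a bad frequency: an interval of
  length `a ^ (-w)` contains at most `1 + 4 ^ t a ^ (-w)` fractions with denominators below `2 ^ t`,
  and windows of the length `w` with `a ^ w ≥ 2 ^ ((1 + β) t)` are available because `h ≤ log a`.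
  (In the earlier work for steps in `{0, 1}` there was only one fraction, since `a ≥ 4`.)
-/

set_option autoImplicit false
set_option maxHeartbeats 1000000

open Finset Filter Topology

namespace Pool.Agent.Results.MP_456481_pr.StepEntropy

open Pool.Agent.KS6_59.AX (tvv pS vS gp wn ms Hn hr)

/-- `X_n = ∑_{i < n} b_i a ^ (n - 1 - i)`: the position after `n` steps of the walk `X_0 = 0`,
`X_{i+1} = a X_i + b_i`. -/
def walk (a n : ℕ) (b : Fin n → ℤ) : ℤ := ∑ i : Fin n, b i * (a : ℤ) ^ (n - 1 - (i : ℕ))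

/-- the recursion `X_{n+1} = a X_n + b_n` (a check of the definition) -/
theorem walk_succ (a n : ℕ) (b : Fin (n + 1) → ℤ) :
    walk a (n + 1) b = a * walk a n (fun i => b i.castSucc) + b (Fin.last n) := by
  rw [walk, walk, Fin.sum_univ_castSucc, Finset.mul_sum]
  congr 1
  · refine Finset.sum_congr rfl fun i _ => ?_
    have h : n + 1 - 1 - ((i.castSucc : Fin (n + 1)) : ℕ) = (n - 1 - (i : ℕ)) + 1 := by
      have := i.2
      simp only [Fin.val_castSucc]
      omega
    rw [h, pow_succ]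
    ring
  · simp

/-- `p` is a probability law with support `S` -/
def IsLaw (S : Finset ℤ) (p : ℤ → ℝ) : Prop := (∀ b ∈ S, 0 < p b) ∧ ∑ b ∈ S, p b = 1

open Classical in
/-- the probability of the event `E` for independent steps `b_0, …, b_{n-1}` with the law `p` -/
noncomputable def prob (S : Finset ℤ) (p : ℤ → ℝ) (n : ℕ) (E : (Fin n → ℤ) → Prop) : ℝ :=
  ∑ b ∈ Fintype.piFinset (fun _ : Fin n => S), if E b then ∏ i, p (b i) else 0

/-- `P_{n,q}(r)`: the probability that `X_n ≡ r` modulo `q` -/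
noncomputable def law (a : ℕ) (S : Finset ℤ) (p : ℤ → ℝ) (q n r : ℕ) : ℝ :=
  prob S p n (fun b => (q : ℤ) ∣ walk a n b - r)

/-- `d_q(n)`: the total variation distance to the uniform law modulo `q` -/
noncomputable def dist (a : ℕ) (S : Finset ℤ) (p : ℤ → ℝ) (q n : ℕ) : ℝ :=
  1 / 2 * ∑ r ∈ range q, |law a S p q n r - 1 / q|

/-- `t` is the mixing time at level `η`: `t = min {n ≥ 0 : d_q(n) ≤ η}` -/
def IsMixingTime (a : ℕ) (S : Finset ℤ) (p : ℤ → ℝ) (q : ℕ) (η : ℝ) (t : ℕ) : Prop :=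
  IsLeast {n : ℕ | dist a S p q n ≤ η} t

/-- the entropy `H(X_n) = - ∑_x P(X_n = x) log P(X_n = x)` of the walk on the integers -/
noncomputable def entropy (a : ℕ) (S : Finset ℤ) (p : ℤ → ℝ) (n : ℕ) : ℝ :=
  ∑ x ∈ (Fintype.piFinset (fun _ : Fin n => S)).image (walk a n),
    Real.negMulLog (prob S p n (fun b => walk a n b = x))

/-- the greatest common divisor of the differences of the steps -/
def gap (S : Finset ℤ) : ℕ := ((S ×ˢ S).gcd (fun x => x.1 - x.2)).natAbs

open Classical in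
/-- almost all integers `q ≥ 2` coprime to `N` have the property `P`: the others have density `0`
relative to the integers coprime to `N` -/
def AlmostAll (N : ℕ) (P : ℕ → Prop) : Prop :=
  Tendsto (fun x : ℕ => (((Icc 2 x).filter (fun q : ℕ => q.Coprime N ∧ ¬ P q)).card : ℝ) /
    (((Icc 1 x).filter (fun q : ℕ => q.Coprime N)).card : ℝ)) atTop (𝓝 0)

/-- the cutoff at `log q / h` within a factor `1 ± δ`, with the rate `q ^ (-w)` -/
def Cutoff (a : ℕ) (S : Finset ℤ) (p : ℤ → ℝ) (h : ℝ) (q : ℕ) (δ w : ℝ) : Prop :=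
  (∀ n : ℕ, (1 + δ) * (Real.log q / h) ≤ n → dist a S p q n ≤ (q:ℝ) ^ (-w)) ∧
    ∀ n : ℕ, (n:ℝ) ≤ (1 - δ) * (Real.log q / h) → 1 - (q:ℝ) ^ (-w) ≤ dist a S p q n

theorem dist_eq (a : ℕ) (S : Finset ℤ) (p : ℤ → ℝ) (q n : ℕ) :
    dist a S p q n = 1 / 2 * tvv (pS S p) (vS S) a n q := by
  unfold dist tvv law
  congr 1
  refine Finset.sum_congr rfl fun r _ => ?_
  have := Pool.Agent.KS6_59.AX.law_eq a S p n q r
  rw [← this]
  rfl

section

variable {a : ℕ} {S : Finset ℤ} {p : ℤ → ℝ}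

theorem pS_pos (hp : IsLaw S p) (d : S) : 0 < pS S p d := hp.1 d d.2

theorem pS_sum (hp : IsLaw S p) : ∑ d, pS S p d = 1 := by
  rw [← hp.2]
  exact Finset.sum_coe_sort S p

theorem vS_bound (S : Finset ℤ) : ∃ B : ℕ, ∀ d : S, |vS S d| ≤ B := by
  refine ⟨∑ d : S, (vS S d).natAbs, fun d => ?_⟩
  rw [Int.abs_eq_natAbs]
  exact_mod_cast Finset.single_le_sum (f := fun d : S => (vS S d).natAbs) (s := univ)
    (fun _ _ => Nat.zero_le _) (Finset.mem_univ d)

theorem hr_posS (ha : 2 ≤ a) (hp : IsLaw S p) (hS : 2 ≤ S.card) : 0 < hr (pS S p) (vS S) a := by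
  obtain ⟨x, hx, y, hy, hxy⟩ := Finset.one_lt_card.1 (show 1 < S.card by omega)
  exact Pool.Agent.KS6_59.AX.hr_pos (pS S p) (vS S) a (pS_pos hp) (pS_sum hp) ha ⟨x, hx⟩ ⟨y, hy⟩ hxy

theorem thin_cut (ha : 2 ≤ a) (hp : IsLaw S p) (hS : 2 ≤ S.card) (δ : ℝ) (hδ : 0 < δ)
    (ω : ℕ → ℝ) (hω : Tendsto ω atTop (𝓝 0)) :
    Pool.Agent.KS6_59.AX.Thin (a * gap S) (fun q => Cutoff a S p (hr (pS S p) (vS S) a) q δ (ω q)) := by
  classical
  obtain ⟨x, hx, _⟩ := Finset.one_lt_card.1 (show 1 < S.card by omega)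
  have : Nonempty S := ⟨⟨x, hx⟩⟩
  obtain ⟨B, hB⟩ := vS_bound S
  have hh := hr_posS ha hp hS
  obtain ⟨c2, hc2, Q2, hQ2⟩ := Pool.Agent.KS6_59.AX.lower (v := vS S) (a := a) (pS_pos hp) (pS_sum hp) hh δ hδ
  intro ε hε
  obtain ⟨c, hc, X0, hX0⟩ := Pool.Agent.KS6_59.AX.up_small (a := a) (pS_pos hp) (pS_sum hp) ha B hB (gp S)
    (Pool.Agent.KS6_59.AX.gp_lattice S) hh δ hδ (ε / 2) (by positivity)
  obtain ⟨Q0, hQ0⟩ := Filter.eventually_atTop.1 (hω.eventually (gt_mem_nhds (lt_min hc hc2)))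
  obtain ⟨M, hM⟩ := exists_nat_ge (2 * (max Q0 Q2 : ℕ) / ε)
  refine ⟨max X0 M, fun X hX => ?_⟩
  have h1 := hX0 X (le_trans (le_max_left _ _) hX)
  set H := hr (pS S p) (vS S) a with hH
  have hsub : (Icc 2 X).filter (fun q : ℕ => q.Coprime (a * gap S) ∧ ¬ Cutoff a S p H q δ (ω q)) ⊆
      ((Icc 1 X).filter (fun q : ℕ => (q.Coprime a ∧ q.Coprime (gp S).natAbs) ∧
        ¬ ∀ n : ℕ, (1 + δ) * (Real.log q / H) ≤ n → tvv (pS S p) (vS S) a n q ≤ (q:ℝ) ^ (-c))) ∪
      range (max Q0 Q2) := by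
    intro q hq
    rw [Finset.mem_filter, Finset.mem_Icc] at hq
    obtain ⟨⟨hq2, hqX⟩, hqa, hno⟩ := hq
    rw [Nat.coprime_mul_iff_right] at hqa
    rw [Finset.mem_union, Finset.mem_filter, Finset.mem_Icc, Finset.mem_range]
    by_cases hqQ : q < max Q0 Q2
    · right; exact hqQ
    · left
      refine ⟨⟨by omega, hqX⟩, hqa, fun hcon => hno ?_⟩
      have hqQ0 : Q0 ≤ q := (le_max_left _ _).trans (not_lt.1 hqQ)
      have hqQ2 : Q2 ≤ q := (le_max_right _ _).trans (not_lt.1 hqQ)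
      have hω1 := (hQ0 q hqQ0).le
      have hq1 : (1:ℝ) ≤ q := by exact_mod_cast (by omega : 1 ≤ q)
      refine ⟨fun n hn => ?_, fun n hn => ?_⟩
      · rw [dist_eq]
        have h2 := hcon n hn
        have h3 : (q:ℝ) ^ (-c) ≤ (q:ℝ) ^ (-ω q) :=
          Real.rpow_le_rpow_of_exponent_le hq1 (neg_le_neg (hω1.trans (min_le_left _ _)))
        have h4 : 0 < (q:ℝ) ^ (-c) := by positivity
        linarith
      · rw [dist_eq]
        have h2 := hQ2 q hqQ2 hqa.1 n hn
        have h3 : (q:ℝ) ^ (-c2) ≤ (q:ℝ) ^ (-ω q) :=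
          Real.rpow_le_rpow_of_exponent_le hq1 (neg_le_neg (hω1.trans (min_le_right _ _)))
        linarith
  have h2 := (Finset.card_le_card hsub).trans (Finset.card_union_le _ _)
  rw [Finset.card_range] at h2
  have h2' : (((Icc 2 X).filter (fun q : ℕ => q.Coprime (a * gap S) ∧
      ¬ Cutoff a S p H q δ (ω q))).card : ℝ) ≤
      (((Icc 1 X).filter (fun q : ℕ => (q.Coprime a ∧ q.Coprime (gp S).natAbs) ∧
        ¬ ∀ n : ℕ, (1 + δ) * (Real.log q / H) ≤ n →
          tvv (pS S p) (vS S) a n q ≤ (q:ℝ) ^ (-c))).card : ℝ) + ((max Q0 Q2 : ℕ) : ℝ) := by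
    exact_mod_cast h2
  have h3 : (M : ℝ) ≤ X := by exact_mod_cast le_trans (le_max_right _ _) hX
  have h4 : 2 * ((max Q0 Q2 : ℕ):ℝ) / ε ≤ X := hM.trans h3
  rw [div_le_iff₀ hε] at h4
  linarith

theorem thin_level (ha : 2 ≤ a) (hp : IsLaw S p) (hS : 2 ≤ S.card) (δ : ℝ) (hδ : 0 < δ)
    (η : ℝ) (hη0 : 0 < η) (hη1 : η < 1) :
    Pool.Agent.KS6_59.AX.Thin (a * gap S) (fun q => ∃ t : ℕ, IsMixingTime a S p q η t ∧
      |(t : ℝ) / (Real.log q / hr (pS S p) (vS S) a) - 1| ≤ δ) := by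
  classical
  set H := hr (pS S p) (vS S) a with hH
  have hH0 : 0 < H := hr_posS ha hp hS
  have hlogq : Tendsto (fun q : ℕ => Real.log q) atTop atTop :=
    Real.tendsto_log_atTop.comp tendsto_natCast_atTop_atTop
  set η' : ℝ := min η ((1 - η) / 2) with hη'
  have hη'0 : 0 < η' := lt_min hη0 (by linarith)
  have hω : Tendsto (fun q : ℕ => -Real.log η' / Real.log q) atTop (𝓝 0) := hlogq.const_div_atTop _
  have hthin := thin_cut (p := p) ha hp hS (δ / 2) (by positivity) _ hω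
  rw [← hH] at hthin
  have hlogb : Tendsto (fun q : ℕ => Real.log q / H) atTop atTop := hlogq.atTop_div_const hH0
  obtain ⟨Q1, hQ1⟩ := Filter.eventually_atTop.1 (hlogb.eventually (eventually_ge_atTop (2 / δ)))
  refine Pool.Agent.KS6_59.AX.thin_mono' _ _ _ hthin Q1 ?_
  intro q hq hq2 hqa hcut
  have h1 := hQ1 q hq
  have hq1 : (1:ℝ) < q := by exact_mod_cast (by omega : 1 < q)
  have hqpos : (0:ℝ) < q := by linarith
  have hlq : 0 < Real.log q := Real.log_pos hq1
  have hη : (q:ℝ) ^ (-(-Real.log η' / Real.log q)) = η' := by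
    rw [Real.rpow_def_of_pos hqpos, neg_div, neg_neg, mul_div_cancel₀ _ hlq.ne', Real.exp_log hη'0]
  obtain ⟨hU, hL⟩ := hcut
  rw [hη] at hU hL
  set Lq := Real.log q / H with hLq
  have hLqpos : 0 < Lq := by positivity
  have hδL : 1 ≤ δ / 2 * Lq := by
    rw [div_le_iff₀ hδ] at h1
    linarith
  set n0 : ℕ := ⌈(1 + δ / 2) * Lq⌉₊ with hn0
  have hn0' : (n0 : ℝ) ≤ (1 + δ) * Lq := by
    have h3 := (Nat.ceil_lt_add_one (show 0 ≤ (1 + δ / 2) * Lq by positivity)).le
    rw [← hn0] at h3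
    nlinarith
  have hle : η' ≤ η := min_le_left _ _
  have hex : ∃ n : ℕ, dist a S p q n ≤ η := ⟨n0, (hU n0 (Nat.le_ceil _)).trans hle⟩
  refine ⟨Nat.find hex, ⟨Nat.find_spec hex, fun n hn => Nat.find_min' hex hn⟩, ?_⟩
  set t := Nat.find hex with ht
  have hup : (t:ℝ) ≤ (1 + δ) * Lq := by
    have h3 : t ≤ n0 := Nat.find_min' hex ((hU n0 (Nat.le_ceil _)).trans hle)
    have h4 : (t:ℝ) ≤ n0 := by exact_mod_cast h3
    linarith
  have hlow : (1 - δ) * Lq ≤ t := by
    by_contra hcon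
    push Not at hcon
    have h3 := hL t (by nlinarith)
    have h4 : dist a S p q t ≤ η := Nat.find_spec hex
    have h5 : η' ≤ (1 - η) / 2 := min_le_right _ _
    linarith
  rw [abs_le]
  constructor
  · rw [neg_le_sub_iff_le_add]
    have : 1 - δ ≤ (t:ℝ) / Lq := by
      rw [le_div_iff₀ hLqpos]; exact hlow
    linarith
  · have : (t:ℝ) / Lq ≤ 1 + δ := by
      rw [div_le_iff₀ hLqpos]; exact hup
    linarith

/-- there is no mixing modulo a common divisor of the differences -/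
theorem no_mixing (hp : IsLaw S p) (hS : 1 ≤ S.card) (q n : ℕ) (hq : 1 ≤ q)
    (hg : ¬ q.Coprime (gap S)) : 1 / 2 ≤ dist a S p q n := by
  classical
  obtain ⟨b₀, hb₀⟩ := Finset.card_pos.1 (show 0 < S.card by omega)
  set e : ℕ := Nat.gcd q (gap S) with he
  have heq : e ∣ q := Nat.gcd_dvd_left _ _
  have heg : e ∣ gap S := Nat.gcd_dvd_right _ _
  have he1 : e ≠ 1 := hg
  have he0 : 0 < e := Nat.gcd_pos_of_pos_left _ (by omega)
  have he2 : 2 ≤ e := by omega
  have hqr : (0:ℝ) < q := by exact_mod_cast (by omega : 0 < q)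
  have her : (2:ℝ) ≤ e := by exact_mod_cast he2
  have hez : (0:ℤ) < e := by exact_mod_cast he0
  rw [dist_eq, tvv]
  -- all the steps are congruent
  have hcong : ∀ d : S, (e:ℤ) ∣ vS S d - b₀ := by
    intro d
    have h1 : (e:ℤ) ∣ (S ×ˢ S).gcd (fun x => x.1 - x.2) := by
      have := Int.natCast_dvd.2 heg
      exact this
    refine h1.trans ?_
    have h2 : ((d:ℤ), b₀) ∈ S ×ˢ S := Finset.mem_product.2 ⟨d.2, hb₀⟩
    exact Finset.gcd_dvd (f := fun x : ℤ × ℤ => x.1 - x.2) h2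
  set x₀ : ℤ := ∑ i : Fin n, b₀ * (a:ℤ) ^ (i:ℕ) with hx₀
  have hval : ∀ b : Fin n → S, (e:ℤ) ∣ Pool.Agent.KS6_59.AX.vl (vS S) a b - x₀ := by
    intro b
    rw [hx₀, Pool.Agent.KS6_59.AX.vl, ← Finset.sum_sub_distrib]
    apply Finset.dvd_sum
    intro i _
    rw [← sub_mul]
    exact Dvd.dvd.mul_right (hcong _) _
  set T : Finset ℕ := (range q).filter (fun r : ℕ => (e:ℤ) ∣ x₀ - r) with hT
  have hzero : ∀ r ∈ range q \ T, Pool.Agent.KS6_59.AX.lw (wn (pS S p) n)
      (Pool.Agent.KS6_59.AX.vl (vS S) a) q r = 0 := by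
    intro r hr
    rw [Finset.mem_sdiff, hT, Finset.mem_filter] at hr
    rw [Pool.Agent.KS6_59.AX.lw]
    apply Finset.sum_eq_zero
    intro b _
    rw [if_neg]
    intro h
    apply hr.2
    refine ⟨hr.1, ?_⟩
    have h1 : (e:ℤ) ∣ Pool.Agent.KS6_59.AX.vl (vS S) a b - r := (Int.natCast_dvd_natCast.2 heq).trans h
    have h2 := dvd_sub h1 (hval b)
    rwa [sub_sub_sub_cancel_left] at h2
  have hTc : (T.card : ℝ) ≤ q / e := by
    have h1 : T.card ≤ (range (q / e)).card := by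
      apply Finset.card_le_card_of_injOn (fun r => r / e)
      · intro r hr
        rw [Finset.mem_coe, hT, Finset.mem_filter, Finset.mem_range] at hr
        rw [Finset.mem_coe, Finset.mem_range]
        exact Nat.div_lt_div_of_lt_of_dvd heq hr.1
      · intro r hr s hs hrs
        rw [Finset.mem_coe, hT, Finset.mem_filter] at hr hs
        have h2 := dvd_sub hs.2 hr.2
        rw [show x₀ - (s:ℤ) - (x₀ - r) = (r:ℤ) - s by ring] at h2
        have h3 : r % e = s % e := by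
          have h4 := (Int.emod_eq_emod_iff_emod_sub_eq_zero.2 (Int.emod_eq_zero_of_dvd h2))
          exact_mod_cast h4
        have h4 : r / e = s / e := hrs
        rw [← Nat.div_add_mod r e, ← Nat.div_add_mod s e, h3, h4]
    rw [Finset.card_range] at h1
    have h2 : ((q / e : ℕ) : ℝ) ≤ (q:ℝ) / e := Nat.cast_div_le
    have h3 : (T.card : ℝ) ≤ ((q / e : ℕ) : ℝ) := by exact_mod_cast h1
    linarith
  have hTr : T ⊆ range q := Finset.filter_subset _ _
  have hsum : ∑ r ∈ range q, Pool.Agent.KS6_59.AX.lw (wn (pS S p) n)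
      (Pool.Agent.KS6_59.AX.vl (vS S) a) q r = 1 := by
    rw [Pool.Agent.KS6_59.AX.sum_lw _ _ q (by omega), Pool.Agent.KS6_59.AX.wn_sum _ (pS_sum hp)]
  have h4 := Finset.sum_sdiff hTr (f := fun r : ℕ => |Pool.Agent.KS6_59.AX.lw (wn (pS S p) n)
      (Pool.Agent.KS6_59.AX.vl (vS S) a) q r - 1 / q|)
  have h5 := Finset.sum_sdiff hTr (f := fun r : ℕ => Pool.Agent.KS6_59.AX.lw (wn (pS S p) n)
      (Pool.Agent.KS6_59.AX.vl (vS S) a) q r)
  rw [Finset.sum_eq_zero hzero, zero_add, hsum] at h5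
  have h6 : ∑ r ∈ T, (Pool.Agent.KS6_59.AX.lw (wn (pS S p) n) (Pool.Agent.KS6_59.AX.vl (vS S) a) q r
      - 1 / q) ≤ ∑ r ∈ T, |Pool.Agent.KS6_59.AX.lw (wn (pS S p) n)
      (Pool.Agent.KS6_59.AX.vl (vS S) a) q r - 1 / q| := Finset.sum_le_sum fun r _ => le_abs_self _
  rw [Finset.sum_sub_distrib, h5, Finset.sum_const, nsmul_eq_mul, mul_one_div] at h6
  have h7 : ∑ r ∈ range q \ T, |Pool.Agent.KS6_59.AX.lw (wn (pS S p) n)
      (Pool.Agent.KS6_59.AX.vl (vS S) a) q r - 1 / q| = ((q:ℝ) - T.card) / q := by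
    rw [Finset.sum_congr rfl (g := fun _ => (1:ℝ) / q) (fun r hr => by
      rw [hzero r hr, zero_sub, abs_neg, abs_of_pos (by positivity)])]
    rw [Finset.sum_const, nsmul_eq_mul, mul_one_div, Finset.card_sdiff_of_subset hTr, Finset.card_range,
      Nat.cast_sub (by
        have := Finset.card_le_card hTr
        rwa [Finset.card_range] at this)]
  have h8 : (T.card : ℝ) / q ≤ 1 / e := by
    rw [div_le_iff₀ hqr]
    refine hTc.trans (le_of_eq ?_)
    ring
  have h9 : (1:ℝ) / e ≤ 1 / 2 := one_div_le_one_div_of_le (by norm_num) her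
  have h10 : ((q:ℝ) - T.card) / q = 1 - T.card / q := by
    rw [sub_div, div_self hqr.ne']
  rw [h10] at h7
  linarith

end

/-- **Theorem.** (1) Let `a ≥ 2` and let `p` be a probability law on `ℤ` with a finite support `S`
with at least two elements. The entropy rate `h = lim H(X_n) / n` of the walk exists, and
`0 < h ≤ log a`; if no two elements of `S` are congruent modulo `a`, then `h` is the entropy
`- ∑ p(b) log p(b)` of the steps. For every `δ > 0`:
(i) for every `ω = o(1)`, for almost all `q` coprime to `a` and to the greatest common divisor of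
the differences of `S`, `d_q(n) ≤ q ^ (-ω(q))` for all `n ≥ (1 + δ) log q / h` and
`d_q(n) ≥ 1 - q ^ (-ω(q))` for all `n ≤ (1 - δ) log q / h`;
(ii) for every level `0 < η < 1` and almost all such `q` the mixing time `t` at level `η` satisfies
`|t / (log q / h) - 1| ≤ δ`.
If `q` is not coprime to this divisor, then `d_q(n) ≥ 1 / 2` for all `n`.
(2) In particular, for every `a ≥ 2` and steps uniform on `{0, 1}`, `t_q = (1 + o(1)) log_2 q` for
almost all `q` coprime to `a`. -/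
theorem result :
    (∀ (a : ℕ) (S : Finset ℤ) (p : ℤ → ℝ), 2 ≤ a → IsLaw S p → 2 ≤ S.card →
      ∃ h : ℝ, Tendsto (fun n : ℕ => entropy a S p n / n) atTop (𝓝 h) ∧ 0 < h ∧ h ≤ Real.log a ∧
        ((∀ b ∈ S, ∀ b' ∈ S, (a : ℤ) ∣ b - b' → b = b') → h = ∑ b ∈ S, Real.negMulLog (p b)) ∧
        (∀ δ : ℝ, 0 < δ →
          (∀ ω : ℕ → ℝ, Tendsto ω atTop (𝓝 0) →
            AlmostAll (a * gap S) (fun q => Cutoff a S p h q δ (ω q))) ∧
          ∀ η : ℝ, 0 < η → η < 1 → AlmostAll (a * gap S) (fun q =>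
            ∃ t : ℕ, IsMixingTime a S p q η t ∧ |(t : ℝ) / (Real.log q / h) - 1| ≤ δ)) ∧
        ∀ q : ℕ, 1 ≤ q → ¬ q.Coprime (gap S) → ∀ n : ℕ, 1 / 2 ≤ dist a S p q n) ∧
    (∀ a : ℕ, 2 ≤ a → ∀ δ : ℝ, 0 < δ → AlmostAll a (fun q =>
      ∃ t : ℕ, IsMixingTime a {0, 1} (fun _ => 1 / 2) q (1 / 4) t ∧
        |(t : ℝ) / Real.logb 2 q - 1| ≤ δ)) := by
  have main : ∀ (a : ℕ) (S : Finset ℤ) (p : ℤ → ℝ), 2 ≤ a → IsLaw S p → 2 ≤ S.card →
      ((∀ b ∈ S, ∀ b' ∈ S, (a : ℤ) ∣ b - b' → b = b') →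
        hr (pS S p) (vS S) a = ∑ b ∈ S, Real.negMulLog (p b)) ∧
      (∀ δ : ℝ, 0 < δ → ∀ η : ℝ, 0 < η → η < 1 → AlmostAll (a * gap S) (fun q =>
            ∃ t : ℕ, IsMixingTime a S p q η t ∧
              |(t : ℝ) / (Real.log q / hr (pS S p) (vS S) a) - 1| ≤ δ)) := by
    intro a S p ha hp hS
    have hN : 1 ≤ a * gap S := Nat.mul_pos (by omega) (Pool.Agent.KS6_59.AX.gp_pos S hS)
    refine ⟨fun hinj => ?_, fun δ hδ η h0 h1 =>
      Pool.Agent.KS6_59.AX.aa_of_thin _ hN _ (thin_level ha hp hS δ hδ η h0 h1)⟩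
    rw [Pool.Agent.KS6_59.AX.hr_eq (pS S p) (vS S) a (pS_pos hp) (pS_sum hp) (by omega)
      (fun d d' h => Subtype.ext (hinj d d.2 d' d'.2 h))]
    rw [← Finset.sum_coe_sort S (fun b => Real.negMulLog (p b))]
    refine Finset.sum_congr rfl fun d _ => ?_
    rw [Real.negMulLog, pS]
    ring
  refine ⟨fun a S p ha hp hS => ?_, fun a ha δ hδ => ?_⟩
  · have hN : 1 ≤ a * gap S := Nat.mul_pos (by omega) (Pool.Agent.KS6_59.AX.gp_pos S hS)
    obtain ⟨x, hx, _⟩ := Finset.one_lt_card.1 (show 1 < S.card by omega)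
    have : Nonempty S := ⟨⟨x, hx⟩⟩
    obtain ⟨B, hB⟩ := vS_bound S
    refine ⟨hr (pS S p) (vS S) a, ?_, hr_posS ha hp hS,
      Pool.Agent.KS6_59.AX.hr_le_log (pS S p) (vS S) a B (pS_pos hp) (pS_sum hp) ha hB,
      (main a S p ha hp hS).1, fun δ hδ => ⟨fun ω hω =>
        Pool.Agent.KS6_59.AX.aa_of_thin _ hN _ (thin_cut ha hp hS δ hδ ω hω),
        fun η h0 h1 => (main a S p ha hp hS).2 δ hδ η h0 h1⟩,
      fun q hq hg n => no_mixing hp (by omega) q n hq hg⟩
    have h1 := Pool.Agent.KS6_59.AX.hr_tendsto (pS S p) (vS S) a (pS_pos hp) (pS_sum hp)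
    refine h1.congr fun n => ?_
    congr 1
    exact (Pool.Agent.KS6_59.AX.entropy_eq a S p (pS_pos hp) n).symm
  · have hlaw : IsLaw ({0, 1} : Finset ℤ) (fun _ => (1:ℝ) / 2) := by
      refine ⟨fun b _ => by norm_num, ?_⟩
      rw [Finset.sum_pair (by norm_num)]
      norm_num
    have hcard : 2 ≤ ({0, 1} : Finset ℤ).card := by
      rw [Finset.card_pair (by norm_num)]
    obtain ⟨hent, hmix⟩ := main a {0, 1} (fun _ => 1 / 2) ha hlaw hcard
    have hgap : gap ({0, 1} : Finset ℤ) = 1 := by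
      have h1 : (({0, 1} : Finset ℤ) ×ˢ ({0, 1} : Finset ℤ)).gcd (fun x => x.1 - x.2) ∣ 1 := by
        have h2 : ((1:ℤ), (0:ℤ)) ∈ ({0, 1} : Finset ℤ) ×ˢ ({0, 1} : Finset ℤ) := by simp
        have h3 := Finset.gcd_dvd (f := fun x : ℤ × ℤ => x.1 - x.2) h2
        simpa using h3
      unfold gap
      exact Int.isUnit_iff_natAbs_eq.1 (isUnit_of_dvd_one h1)
    have hh : hr (pS ({0, 1} : Finset ℤ) (fun _ => (1:ℝ) / 2)) (vS {0, 1}) a = Real.log 2 := by
      rw [hent]
      · rw [Finset.sum_pair (by norm_num), Real.negMulLog]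
        rw [one_div, Real.log_inv]
        ring
      · have ha' : (2:ℤ) ≤ a := by exact_mod_cast ha
        intro b hb b' hb' h
        simp only [Finset.mem_insert, Finset.mem_singleton] at hb hb'
        rcases hb with rfl | rfl <;> rcases hb' with rfl | rfl
        · rfl
        · exfalso
          have := Int.le_of_dvd (by norm_num) ((dvd_neg).2 h)
          omega
        · exfalso
          have := Int.le_of_dvd (by norm_num) h
          omega
        · rfl
    have h1 := hmix δ hδ (1 / 4) (by norm_num) (by norm_num)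
    rw [hh, hgap, mul_one] at h1
    exact h1

end Pool.Agent.Results.MP_456481_pr.StepEntropy
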